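import Pool.Agent.helper55.VDI.SpecB1

/-!
# Project INF (MP_07c750_an), version B, row BCB: crude bounds of beams
-/

set_option autoImplicit false

open scoped ContDiff Topology InnerProductSpace ComplexConjugate ENNReal
open MeasureTheory Filter Set

namespace Pool.Agent.VDI

open Pool.Agent.VD
open Pool.Agent.VQ (CH KZ PS perZ cmZ)
open Pool.Agent.RPQ (IsOp)
open Pool.Agent.VDA (STP FB FR FT nY OY OA)
open Pool.Agent.VDE (FDX)

noncomputable section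

variable {d : ℕ}

lemma BCB_lag : Lag 1 (1 : MC d) (Complex.I • 1) := by
  refine ⟨?_, ?_, ?_, ?_⟩
  · simp
  · rw [Matrix.conjTranspose_smul]
    simp only [Matrix.conjTranspose_one, one_mul, mul_one, RCLike.star_def, Complex.conj_I]
    rw [← sub_smul]
    congr 1
    ring
  · intro i j
    rw [Matrix.one_apply]
    split_ifs <;> simp
  · intro i j
    rw [Matrix.smul_apply, Matrix.one_apply]
    split_ifs <;> simp

lemma BCB_itd (n : ℕ) : iteratedDeriv n (fun s : ℝ => Complex.exp ((s : ℂ) * Complex.I)) = fun s : ℝ => Complex.I ^ n * Complex.exp ((s : ℂ) * Complex.I) := by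
  induction n with
  | zero => simp
  | succ n ih =>
    rw [iteratedDeriv_succ, ih]
    funext s
    have h1 : HasDerivAt (fun s : ℝ => (s : ℂ) * Complex.I) Complex.I s := by
      have := (Complex.ofRealCLM.hasDerivAt (x := s)).mul_const Complex.I
      simpa using this
    have h2 : HasDerivAt (fun s : ℝ => Complex.exp ((s : ℂ) * Complex.I)) (Complex.exp ((s : ℂ) * Complex.I) * Complex.I) s := h1.cexp
    rw [(h2.const_mul (Complex.I ^ n)).deriv]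
    ring

lemma BCB_exp (c : ℝ) (x ξ : V d) (n : ℕ) (w : V d) :
    ‖iteratedFDeriv ℝ n (fun w : V d => Complex.exp (((c * ⟪ξ, w - x⟫_ℝ : ℝ) : ℂ) * Complex.I)) w‖ ≤ (|c| * ‖ξ‖) ^ n := by
  have hsm : ContDiff ℝ ∞ (fun s : ℝ => Complex.exp ((s : ℂ) * Complex.I)) :=
    Complex.contDiff_exp.comp ((Complex.ofRealCLM.contDiff).mul contDiff_const)
  have e1 : (fun w : V d => Complex.exp (((c * ⟪ξ, w - x⟫_ℝ : ℝ) : ℂ) * Complex.I)) =
      fun w : V d => ((fun s : ℝ => Complex.exp ((s : ℂ) * Complex.I)) ∘ (c • innerSL ℝ ξ : V d →L[ℝ] ℝ)) (w - x) := by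
    funext w
    simp [Function.comp]
  rw [e1]
  have e2 := iteratedFDeriv_comp_sub (𝕜 := ℝ) (f := (fun s : ℝ => Complex.exp ((s : ℂ) * Complex.I)) ∘ (c • innerSL ℝ ξ : V d →L[ℝ] ℝ)) n x w
  rw [e2, ContinuousLinearMap.iteratedFDeriv_comp_right (c • innerSL ℝ ξ : V d →L[ℝ] ℝ) (hsm.of_le (m := n) (by exact_mod_cast le_top)) _ le_rfl]
  refine (ContinuousMultilinearMap.norm_compContinuousLinearMap_le _ _).trans ?_
  rw [norm_iteratedFDeriv_eq_norm_iteratedDeriv, BCB_itd, norm_mul, norm_pow, Complex.norm_I, one_pow, one_mul, Complex.norm_exp_ofReal_mul_I, one_mul, Finset.prod_const, Finset.card_univ, Fintype.card_fin]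
  refine pow_le_pow_left₀ (norm_nonneg _) ?_ n
  rw [norm_smul, innerSL_apply_norm, Real.norm_eq_abs]

lemma BCB_pk (C' η m R : ℝ) (q : P d) (f : V d → ℂ) (hm : 0 ≤ m) (hR : 1 ≤ R) (hC' : ‖q.2‖ ≤ C') (hη : η ≤ 1 / 8) (h : Pk 2 η m R q f) (w : V d) :
    ‖f w‖ + ‖fderiv ℝ f w‖ + ‖fderiv ℝ (fderiv ℝ f) w‖ ≤ m * (4 * (1 + C') ^ 2 * R ^ 2) := by
  obtain ⟨A, hA, -, hb, hf⟩ := h
  have hC0 : 0 ≤ C' := (norm_nonneg _).trans hC'
  have hR0 : (0 : ℝ) < R := by linarith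
  have ha : R ^ (1 / 2 + η) ≤ R := by
    calc R ^ (1 / 2 + η) ≤ R ^ (1 : ℝ) := Real.rpow_le_rpow_of_exponent_le hR (by linarith)
      _ = R := Real.rpow_one R
  have ha0 : 0 ≤ R ^ (1 / 2 + η) := by positivity
  set E : V d → ℂ := fun w => Complex.exp (((R * ⟪q.2, w - q.1⟫_ℝ : ℝ) : ℂ) * Complex.I) with hE
  set Bf : V d → ℂ := fun w => A (w - q.1) with hBf
  have hEs : ContDiff ℝ ∞ E := by
    have : ContDiff ℝ ∞ (fun w : V d => R * ⟪q.2, w - q.1⟫_ℝ) :=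
      contDiff_const.mul (contDiff_const.inner ℝ (contDiff_id.sub contDiff_const))
    exact Complex.contDiff_exp.comp ((Complex.ofRealCLM.contDiff.comp this).mul contDiff_const)
  have hBs : ContDiff ℝ ∞ Bf := hA.comp (contDiff_id.sub contDiff_const)
  have hfe : f = fun w => E w * Bf w := funext hf
  have hE1 : ∀ n, ‖iteratedFDeriv ℝ n E w‖ ≤ (R * C') ^ n := by
    intro n
    refine (BCB_exp R q.1 q.2 n w).trans ?_
    rw [abs_of_pos hR0]
    exact pow_le_pow_left₀ (by positivity) (mul_le_mul_of_nonneg_left hC' hR0.le) n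
  have hB1 : ∀ n ≤ 2, ‖iteratedFDeriv ℝ n Bf w‖ ≤ m * R ^ n := by
    intro n hn
    rw [hBf, iteratedFDeriv_comp_sub]
    refine (hb n hn _).trans (mul_le_mul_of_nonneg_left (pow_le_pow_left₀ ha0 ha n) hm)
  have key : ∀ n ≤ 2, ‖iteratedFDeriv ℝ n f w‖ ≤ ∑ i ∈ Finset.range (n + 1), (n.choose i : ℝ) * (R * C') ^ i * (m * R ^ (n - i)) := by
    intro n hn
    rw [hfe]
    refine (norm_iteratedFDeriv_mul_le (hEs.of_le (m := n) (by exact_mod_cast le_top)) (hBs.of_le (m := n) (by exact_mod_cast le_top)) w le_rfl).trans ?_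
    refine Finset.sum_le_sum fun i hi => ?_
    refine mul_le_mul (mul_le_mul_of_nonneg_left (hE1 i) (by positivity)) (hB1 (n - i) (by omega)) (norm_nonneg _) (by positivity)
  have k0 := key 0 (by norm_num)
  have k1 := key 1 (by norm_num)
  have k2 := key 2 (by norm_num)
  rw [norm_iteratedFDeriv_zero] at k0
  rw [norm_iteratedFDeriv_one] at k1
  have e2 : ‖iteratedFDeriv ℝ 2 f w‖ = ‖fderiv ℝ (fderiv ℝ f) w‖ := by
    rw [← norm_iteratedFDeriv_fderiv, norm_iteratedFDeriv_one]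
  rw [e2] at k2
  simp only [Finset.sum_range_succ, Finset.sum_range_zero] at k0 k1 k2
  norm_num at k0 k1 k2
  have q0 : m ≤ m * R ^ 2 := le_mul_of_one_le_right hm (one_le_pow₀ hR)
  have q1 : m * R ≤ m * R ^ 2 := by
    have : R ≤ R ^ 2 := by nlinarith
    exact mul_le_mul_of_nonneg_left this hm
  have q2 : R * C' * m ≤ C' * (m * R ^ 2) := by nlinarith
  have q3 : 0 ≤ C' * (m * R ^ 2) := by positivity
  have q4 : 0 ≤ C' ^ 2 * (m * R ^ 2) := by positivity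
  have e3 : m * (4 * (1 + C') ^ 2 * R ^ 2) = 4 * (m * R ^ 2) + 8 * (C' * (m * R ^ 2)) + 4 * (C' ^ 2 * (m * R ^ 2)) := by ring
  rw [e3]
  nlinarith

lemma BCB_small (R : ℝ) (hR : 4096 ≤ R) : 2 * R ^ (-(1 / 4) : ℝ) ≤ 1 / 4 := by
  have h1 : R ^ (-(1 / 4) : ℝ) ≤ (4096 : ℝ) ^ (-(1 / 4) : ℝ) :=
    Real.rpow_le_rpow_of_nonpos (by norm_num) hR (by norm_num)
  have h2 : (4096 : ℝ) ^ (-(1 / 4) : ℝ) = 1 / 8 := by
    rw [show (4096 : ℝ) = 8 ^ (4 : ℝ) by norm_num, ← Real.rpow_mul (by norm_num)]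
    norm_num [Real.rpow_neg_one]
  linarith

theorem BCB_proof (hABMP : ABMP_stmt) (hABMR : ABMR_stmt) (hACNF : ACNF_stmt) : BCB_stmt := by
  intro d Γ _ _ K k B r0 hK
  obtain ⟨Cb, hCb1, hCb⟩ := hABMP d Γ K k B r0 hK
  obtain ⟨C', hC'1, hC'⟩ := hACNF d Γ K k B r0 1 hK
  refine ⟨8 * Cb + C' + 1, by linarith, ?_⟩
  intro ch ζ1 hch hζ hCζ
  have hCbζ : Cb * ζ1 ≤ 1 / 8 := by nlinarith
  have hζ8 : ζ1 ≤ 1 / 8 := by nlinarith
  obtain ⟨R1, hR11, hR1⟩ := hCb ch 2 0 ζ1 ζ1 ζ1 0 hch ⟨le_rfl, hζ, le_rfl, by simp [hζ.le], by linarith⟩ le_rfl (by linarith)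
  refine ⟨max (max R1 4096) (4 * (1 + C') ^ 2), le_max_of_le_left (le_max_of_le_left hR11), ?_⟩
  intro R t G Φ p w hR hOK hp ht
  have hRR1 : R1 ≤ R := (le_max_left _ _).trans ((le_max_left _ _).trans hR)
  have hR4 : 4096 ≤ R := (le_max_right _ _).trans ((le_max_left _ _).trans hR)
  have hRC : 4 * (1 + C') ^ 2 ≤ R := (le_max_right _ _).trans hR
  have hR1' : 1 ≤ R := by linarith
  have hR0 : 0 < R := by linarith
  have hEp : |Ep G p| ≤ 1 / 4 := hp.2.trans (BCB_small R hR4)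
  have hHam : Ham G p ≤ 2 := by
    have h1 := (abs_le.mp hEp).2
    unfold Ep at h1
    linarith
  have hΦ := hC' G Φ hOK p t hp.1 hHam ht
  refine ⟨?_, ?_⟩
  · have hPk := (hR1 R t G Φ p 1 (Complex.I • 1) hRR1 hOK hp.1 hEp ht (by rw [Real.rpow_zero]; exact BCB_lag)).1
    refine (BCB_pk C' (Cb * ζ1) (R ^ (Cb * ζ1)) R (Φ t p) _ (by positivity) hR1' hΦ.2.1 hCbζ hPk w).trans ?_
    have h1 : R ^ (Cb * ζ1) ≤ R ^ (1 : ℝ) := Real.rpow_le_rpow_of_exponent_le hR1' (by linarith)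
    rw [Real.rpow_one] at h1
    have h2 : R ^ (4 : ℝ) = R * (R * R ^ 2) := by
      rw [show (4 : ℝ) = ((4 : ℕ) : ℝ) by norm_num, Real.rpow_natCast]
      ring
    rw [h2]
    exact mul_le_mul h1 (mul_le_mul_of_nonneg_right hRC (by positivity)) (by positivity) (by positivity)
  · intro hne
    obtain ⟨-, -, -, -, -, -, b7, -⟩ := hABMR d Γ K k B G Φ 1 1 (Complex.I • 1) ch ζ1 R hOK BCB_lag hch hζ hζ8 hR1'
    have h2 := b7 p t w (Or.inl hne)
    have h3 : R ^ (-(1 / 2) + ζ1) ≤ 1 := Real.rpow_le_one_of_one_le_of_nonpos hR1' (by linarith)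
    have h4 : ‖w‖ ≤ ‖w - (Φ t p).1‖ + ‖(Φ t p).1‖ := by
      calc ‖w‖ = ‖(w - (Φ t p).1) + (Φ t p).1‖ := by rw [sub_add_cancel]
        _ ≤ _ := norm_add_le _ _
    have h5 := hΦ.1
    linarith

end

end Pool.Agent.VDI
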