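import Pool.Agent.helper11.VDI.SpecU
import Pool.Agent.helper5.VD.FND

/-!
# Row vdi:FNFU: the statement for one exact fundamental domain, uniform on compact sets of parameters (adapted from helper5/VD/FND.lean and helper32/VDI/FNF.lean)
-/

set_option autoImplicit false

open scoped ContDiff Topology InnerProductSpace ENNReal ComplexConjugate
open MeasureTheory Filter Set

namespace Pool.Agent.VDI

open Pool.Agent.RPQ (PN PJ UN upd IsOp)
open Pool.Agent.VQ (CH AdZ perZ rk)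
open Pool.Agent.VN (aN)
open Pool.Agent.VD
open Pool.Agent.VDE (UWLD FDX)

noncomputable section

theorem FNFU_que {d : ℕ} {Γ : Type} [Group Γ] [MulAction Γ (V d)] {K F0 : Set (V d)} (hK : FdK Γ K) (hF : FDX Γ K F0)
    (hMVE : MVE_stmt) {A : Set (V d → V d →L[ℝ] V d)} (hA : ∀ G ∈ A, IsMetric G) {S : ℕ → V d → ℝ} (hS : ∀ i, TD Γ (S i))
    (hS2 : ∀ h : V d → ℝ, Continuous h → Inv Γ h → (∀ x, 0 ≤ h x ∧ h x ≤ 1) → ∀ ε : ℝ, 0 < ε → ∃ i, ∀ x, |h x - S i x| ≤ ε)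
    (hB : ∀ i n : ℕ, ∃ r1 : ℝ, 0 < r1 ∧ ∀ G ∈ A, ∀ (μ : ℝ) (φ : V d → ℂ), r1 ≤ μ → Eigenfunction Γ G μ φ →
      |(∫ x in F0, S i x * ‖φ x‖ ^ 2 ∂mv G) - mean G F0 (S i) * nn G F0 φ| ≤ 1 / ((n : ℝ) + 1) * nn G F0 φ) : QUS Γ F0 A := by
  intro h hc hi ε hε
  -- h is bounded
  obtain ⟨M0, hM0⟩ := hK.compact.exists_bound_of_continuousOn hc.continuousOn
  obtain ⟨M, hM, hhM⟩ : ∃ M : ℝ, 0 < M ∧ ∀ x, |h x| ≤ M := by
    refine ⟨max M0 1, lt_max_of_lt_right one_pos, fun x => ?_⟩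
    obtain ⟨γ, hγ⟩ := hK.cover x
    have h1 := hM0 (γ • x) hγ
    rw [hi γ x, Real.norm_eq_abs] at h1
    exact h1.trans (le_max_left _ _)
  have hc' : Continuous fun x => (h x + M) / (2 * M) := (hc.add continuous_const).div_const _
  obtain ⟨i, hSi⟩ := hS2 (fun x => (h x + M) / (2 * M)) hc' (fun γ x => by show (h (γ • x) + M) / (2 * M) = (h x + M) / (2 * M); rw [hi γ x])
    (fun x => by
      have h1 := abs_le.1 (hhM x)
      refine ⟨div_nonneg (by linarith) (by positivity), ?_⟩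
      rw [div_le_one (by positivity)]
      linarith) (ε / (8 * M)) (by positivity)
  obtain ⟨n, hn⟩ := exists_nat_one_div_lt (show 0 < ε / (4 * M) by positivity)
  obtain ⟨r1, hr1, hr2⟩ := hB i n
  refine ⟨r1, fun G hGA μ φ hμ hφ => ?_⟩
  obtain ⟨m1, m2, m3, m4, -⟩ := hMVE d G (hA G hGA)
  have hφc : Continuous fun x => ‖φ x‖ ^ 2 := (hφ.1.continuous.norm).pow 2
  have hSc : Continuous (S i) := (hS i).smooth.continuous
  have hint : ∀ g : V d → ℝ, Continuous g → Integrable g (volume.restrict F0) := fun g hg =>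
    (hg.continuousOn.integrableOn_compact hK.compact).mono_set hF.sub
  obtain ⟨b, hb⟩ := hK.compact.isBounded.exists_norm_le
  have hmass := (m4 F0 b hF.meas (fun x hx => hb x (hF.sub hx))).2
  have hT := hr2 G hGA μ φ hμ hφ
  have t1 : (∫ x in F0, S i x * ‖φ x‖ ^ 2 ∂mv G) = ∫ x in F0, S i x * (‖φ x‖ ^ 2 * dens G x) := by
    rw [m3 F0 _ hF.meas]
    simp only [mul_assoc]
  have t2 : nn G F0 φ = ∫ x in F0, ‖φ x‖ ^ 2 * dens G x := by
    unfold nn
    rw [m3 F0 _ hF.meas]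
  have t3 : mean G F0 (S i) = (∫ x in F0, S i x * dens G x) / ∫ x in F0, dens G x := by
    unfold mean
    rw [m3 F0 _ hF.meas, hmass]
  rw [t1, t2, t3] at hT
  have hz : 0 < ∫ x in F0, dens G x ∨ (volume.restrict F0 : Measure (V d)) = 0 := by
    by_cases h0 : (volume.restrict F0 : Measure (V d)) = 0
    · exact Or.inr h0
    · left
      have h1 : 0 < ∫ x in F0, dens G x := by
        rw [setIntegral_pos_iff_support_of_nonneg_ae (Eventually.of_forall fun x => (m2 x).le) (hint _ m1)]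
        have h2 : Function.support (dens G) = univ := by
          ext x
          simp only [Function.mem_support, mem_univ, iff_true]
          exact (m2 x).ne'
        rw [h2, univ_inter]
        refine pos_iff_ne_zero.2 fun h3 => h0 ?_
        rw [Measure.restrict_eq_zero]
        exact h3
      exact h1
  have hfin := FND_abs (ν := volume.restrict F0) (w := fun x => ‖φ x‖ ^ 2 * dens G x) (ρ := dens G) (h := h) (s := S i) (M := M)
    (ε' := ε / (8 * M)) (e := 1 / ((n : ℝ) + 1)) (fun x => mul_nonneg (by positivity) (m2 x).le) (fun x => (m2 x).le) hz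
    (hint _ (hφc.mul m1)) (hint _ m1) (hint _ (hc.mul (hφc.mul m1))) (hint _ (hSc.mul (hφc.mul m1))) (hint _ (hc.mul m1))
    (hint _ (hSc.mul m1)) hM hSi hT
  have e1 : (∫ x in F0, h x * ‖φ x‖ ^ 2 * dens G x) = ∫ x in F0, h x * (‖φ x‖ ^ 2 * dens G x) := by
    simp only [mul_assoc]
  rw [e1]
  refine hfin.trans (mul_le_mul_of_nonneg_right ?_ (integral_nonneg fun x => mul_nonneg (by positivity) (m2 x).le))
  have h5 : 1 / ((n : ℝ) + 1) + 2 * (ε / (8 * M)) ≤ ε / (2 * M) := by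
    have h6 : ε / (4 * M) + 2 * (ε / (8 * M)) = ε / (2 * M) := by
      field_simp
      norm_num
    linarith
  calc 2 * M * (1 / ((n : ℝ) + 1) + 2 * (ε / (8 * M))) ≤ 2 * M * (ε / (2 * M)) := mul_le_mul_of_nonneg_left h5 (by positivity)
    _ = ε := by field_simp

theorem FNFU_proof (hBC2U : BC2U_stmt) (hBC1B : BC1B_stmt) (hFMD : VD.FMD_stmt) (hSED : VD.SED_stmt) (hLND : VD.LND_stmt) (hMVE : VD.MVE_stmt)
    (hRSM : RPQ.RSM_stmt) (hAPUE : VD.APUE_stmt) : FNFU_stmt := by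
  intro d Γ _ _ K F0 hd hK hF
  obtain ⟨ch, hch⟩ := FND_ch
  obtain ⟨r0, χ0, hPU, -⟩ := hAPUE d Γ K hK
  obtain ⟨Cn, k0, J, p, χ, -, hFam, hJ⟩ := hFMD d Γ K hK
  have hSE := hSED d Γ K Cn k0 J p χ hK hFam
  refine ⟨k0, J, FND_u J χ, hJ, ?_, ?_, ?_, ?_⟩
  · intro k j
    by_cases h : j < J k
    · have hk : k0 ≤ k := by
        by_contra hk
        have := hFam.zero k (by omega)
        omega
      have hn := hFam.net k hk
      have he : FND_u J χ k j = fun x => aN k * χ k ⟨j, h⟩ x := by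
        funext x
        unfold FND_u
        rw [dif_pos h]
      rw [he]
      refine ⟨contDiff_const.mul (hn.smooth ⟨j, h⟩), fun γ x => ?_, fun x => mul_nonneg (FND_aN k) (hn.bd ⟨j, h⟩ x).1⟩
      show aN k * χ k ⟨j, h⟩ (γ • x) = aN k * χ k ⟨j, h⟩ x
      rw [hn.inv ⟨j, h⟩ γ x]
    · have he : FND_u J χ k j = fun _ => 0 := by
        funext x
        unfold FND_u
        rw [dif_neg h]
      rw [he]
      exact ⟨contDiff_const, fun γ x => rfl, fun x => le_refl _⟩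
  · intro L hL n
    obtain ⟨c, C', hc, -, h, -⟩ := hFam.sum L hL
    refine ⟨c n, hc n, fun k ξ hξ => ?_⟩
    have h1 := h n k (fun q => ξ q.2) (fun q => hξ _)
    have he : (fun x : V d => ∑ j ∈ Finset.range (J k), ξ j * FND_u J χ k j x) = lD χ (fun q => ξ q.2) k := by
      funext x
      unfold lD
      exact FND_sum J χ k ξ x
    rw [he]
    exact h1
  · intro ζ hζ
    have he : (fun x : V d => ∑' k, ∑ j ∈ Finset.range (J k), ζ (k, j) * FND_u J χ k j x) = rD χ ζ := by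
      funext x
      rw [FND_tsum]
    rw [he]
    exact (hSE.1 ζ hζ).1
  · intro m Gs hSF
    have hBCP : BCP Γ K F0 J χ Gs := hBC1B d Γ K F0 r0 χ0 ch Cn k0 J p χ m Gs hd hK hF hPU hch hFam hSF
    obtain ⟨S, hS1, hS2⟩ := hLND d Γ K hK
    have hae : ∀ᵐ ζ ∂PN, ∀ i n : ℕ, ∀ T : Set (V m), IsCompact T → (∀ s ∈ T, NegativelyCurved (cfm (rD χ ζ) (Gs s))) → ∃ r1 : ℝ, 0 < r1 ∧ ∀ s ∈ T, ∀ (μ : ℝ) (φ : V d → ℂ), r1 ≤ μ →
        Eigenfunction Γ (cfm (rD χ ζ) (Gs s)) μ φ → |(∫ x in F0, S i x * ‖φ x‖ ^ 2 ∂mv (cfm (rD χ ζ) (Gs s))) -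
          mean (cfm (rD χ ζ) (Gs s)) F0 (S i) * nn (cfm (rD χ ζ) (Gs s)) F0 φ| ≤ 1 / ((n : ℝ) + 1) * nn (cfm (rD χ ζ) (Gs s)) F0 φ := by
      rw [ae_all_iff]
      intro i
      rw [ae_all_iff]
      intro n
      exact hBC2U d Γ K F0 Cn k0 J p χ m Gs hd hK hF hFam hSF hBCP (S i) (1 / ((n : ℝ) + 1)) (hS1 i) (by positivity)
    filter_upwards [hae, hRSM.2.1] with ζ hζ hζ1
    intro T hT hneg
    have he : (fun x : V d => ∑' k, ∑ j ∈ Finset.range (J k), ζ (k, j) * FND_u J χ k j x) = rD χ ζ := by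
      funext x
      rw [FND_tsum]
    rw [he] at hneg ⊢
    refine FNFU_que hK hF hMVE ?_ hS1 hS2 fun i n => ?_
    · rintro _ ⟨s, -, rfl⟩
      exact FND_met (hSE.1 ζ hζ1).1 (hSF.met s)
    · obtain ⟨r1, h1, h2⟩ := hζ i n T hT hneg
      refine ⟨r1, h1, ?_⟩
      rintro _ ⟨s, hs, rfl⟩
      exact h2 s hs

end

end Pool.Agent.VDI
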