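import Pool.Agent.helper74.VDI.SpecF

/-!
# Project INF (MP_07c750_an), row NGB: negative curvature is an open condition, uniformly for compact families
-/

set_option autoImplicit false

open scoped ContDiff Topology InnerProductSpace ENNReal ComplexConjugate
open MeasureTheory Filter Set

namespace Pool.Agent.VDI

open Pool.Agent.RPQ (PN PJ UN upd)
open Pool.Agent.VQ (CH rk)
open Pool.Agent.VN (aN)
open Pool.Agent.VD
open Pool.Agent.VDE (UWLD FDX)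

noncomputable section

theorem NGB_cfm0 {d : ℕ} (G : V d → V d →L[ℝ] V d) : cfm (fun _ => 0) G = G := by
  funext x
  simp [cfm]

theorem NGB_proof (hNGM : NGM_stmt) (hFBL : FBL_stmt) (hCFC : CFC_stmt) : NGB_stmt := by
  intro d Γ _ _ K m Gs L hK hS hL hneg
  obtain ⟨S, hSb⟩ := hL.isBounded.exists_norm_le
  obtain ⟨R, hR⟩ := hK.compact.isBounded.exists_norm_le
  obtain ⟨m', hm'⟩ := exists_nat_ge R
  obtain ⟨b, hb1, hb2, -, hb4⟩ := hFBL d m Gs S hS.smooth hS.met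
  have hKm : ∀ x ∈ K, ‖x‖ ≤ (m' : ℝ) := fun x hx => (hR x hx).trans hm'
  -- constants
  set M : ℝ := b m' 0 + b m' 1 + b m' 2 with hM
  have hM0 : ∀ i ≤ 2, b m' i ≤ M := by
    intro i hi
    have h0 := hb1 m' 0
    have h1 := hb1 m' 1
    have h2 := hb1 m' 2
    interval_cases i <;> simp only [hM] <;> linarith
  have hM1 : 1 ≤ M := (hb1 m' 0).trans (hM0 0 (by norm_num))
  have hMp : 0 < M := by linarith
  obtain ⟨C0, hC01, hC0⟩ := (hCFC d).2 0 M hM1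
  obtain ⟨C1, hC11, hC1⟩ := (hCFC d).2 1 M hM1
  obtain ⟨C2, hC21, hC2⟩ := (hCFC d).2 2 M hM1
  set C : ℝ := C0 + C1 + C2 with hCdef
  have hCp : 0 < C := by linarith
  have hclose : ∀ (f : V d → ℝ) (s : V m) (x : V d) (σ : ℝ), ContDiff ℝ ∞ f → s ∈ L → x ∈ K → 0 ≤ σ → σ ≤ 1 → (∀ n ≤ 2, DK K n f σ) → ∀ n ≤ 2, ‖iteratedFDeriv ℝ n (fun y => Gs s y - cfm f (Gs s) y) x‖ ≤ C * σ := by
    intro f s x σ hf hs hx hσ hσ1 hd n hn
    have hz : ContDiff ℝ ∞ (fun _ : V d => (0 : ℝ)) := contDiff_const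
    have hz0 : ∀ i, ‖iteratedFDeriv ℝ i (fun _ : V d => (0 : ℝ)) x‖ = 0 := by
      intro i
      rw [iteratedFDeriv_fun_zero]
      simp
    have hyp : ∀ i ≤ 2, ‖iteratedFDeriv ℝ i (fun _ : V d => (0 : ℝ)) x‖ ≤ M ∧ ‖iteratedFDeriv ℝ i f x‖ ≤ M ∧ ‖iteratedFDeriv ℝ i (Gs s) x‖ ≤ M := by
      intro i hi
      refine ⟨by rw [hz0]; exact hMp.le, ?_, ?_⟩
      · exact (hd i hi x hx).trans (hσ1.trans hM1)
      · exact (hb2 m' i s x (hSb s hs) (hKm x hx)).trans (hM0 i hi)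
    have hyp2 : ∀ i ≤ 2, ‖iteratedFDeriv ℝ i (fun y => (fun _ : V d => (0 : ℝ)) y - f y) x‖ ≤ σ := by
      intro i hi
      have e1 : (fun y => (fun _ : V d => (0 : ℝ)) y - f y) = -f := by
        funext y
        simp
      rw [e1, iteratedFDeriv_neg_apply, norm_neg]
      exact hd i hi x hx
    have fin : ∀ (Cn : ℝ) (n : ℕ), n ≤ 2 → Cn ≤ C → (∀ (f f' : V d → ℝ) (G : V d → V d →L[ℝ] V d) (x : V d) (s : ℝ), ContDiff ℝ ∞ f → ContDiff ℝ ∞ f' → IsMetric G → 0 ≤ s → s ≤ 1 → (∀ i ≤ n, ‖iteratedFDeriv ℝ i f x‖ ≤ M ∧ ‖iteratedFDeriv ℝ i f' x‖ ≤ M ∧ ‖iteratedFDeriv ℝ i G x‖ ≤ M) →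
        ‖iteratedFDeriv ℝ n (cfm f G) x‖ ≤ Cn ∧ ((∀ i ≤ n, ‖iteratedFDeriv ℝ i (fun y => f y - f' y) x‖ ≤ s) → ‖iteratedFDeriv ℝ n (fun y => cfm f G y - cfm f' G y) x‖ ≤ Cn * s)) →
        ‖iteratedFDeriv ℝ n (fun y => Gs s y - cfm f (Gs s) y) x‖ ≤ C * σ := by
      intro Cn n hn hCn h
      have h1 := (h (fun _ => 0) f (Gs s) x σ hz hf (hS.met s) hσ hσ1 (fun i hi => hyp i (hi.trans hn))).2 (fun i hi => hyp2 i (hi.trans hn))
      rw [NGB_cfm0] at h1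
      exact h1.trans (mul_le_mul_of_nonneg_right hCn hσ)
    interval_cases n
    · exact fin C0 0 (by norm_num) (by linarith) hC0
    · exact fin C1 1 (by norm_num) (by linarith) hC1
    · exact fin C2 2 (by norm_num) (by linarith) hC2
  -- compactness
  have key : ∃ σ : ℝ, 0 < σ ∧ ∀ f : V d → ℝ, ContDiff ℝ ∞ f → Inv Γ f → (∀ n ≤ 2, DK K n f σ) → ∀ s ∈ L, s ∈ L → NegativelyCurved (cfm f (Gs s)) := by
    refine hL.induction_on (p := fun A => ∃ σ : ℝ, 0 < σ ∧ ∀ f : V d → ℝ, ContDiff ℝ ∞ f → Inv Γ f → (∀ n ≤ 2, DK K n f σ) → ∀ s ∈ A, s ∈ L → NegativelyCurved (cfm f (Gs s))) ?_ ?_ ?_ ?_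
    · exact ⟨1, one_pos, fun f _ _ _ s hs => absurd hs (Set.notMem_empty s)⟩
    · rintro A A' hA ⟨σ, h1, h2⟩
      exact ⟨σ, h1, fun f a1 a2 a3 s hs => h2 f a1 a2 a3 s (hA hs)⟩
    · rintro A A' ⟨σ, h1, h2⟩ ⟨σ', h1', h2'⟩
      refine ⟨min σ σ', lt_min h1 h1', fun f a1 a2 a3 s hs hsL => ?_⟩
      rcases hs with hs | hs
      · exact h2 f a1 a2 (fun n hn x hx => (a3 n hn x hx).trans (min_le_left _ _)) s hs hsL
      · exact h2' f a1 a2 (fun n hn x hx => (a3 n hn x hx).trans (min_le_right _ _)) s hs hsL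
    · intro s0 hs0
      obtain ⟨σ, hσ, hσN⟩ := hNGM d Γ K (Gs s0) hK (hS.met s0) (hS.iso s0) (hneg s0 hs0)
      refine ⟨Metric.ball s0 (σ / (2 * M)), mem_nhdsWithin_of_mem_nhds (Metric.ball_mem_nhds s0 (by positivity)), min 1 (σ / (2 * C)), lt_min one_pos (by positivity), ?_⟩
      intro f a1 a2 a3 s hs hsL
      refine hσN (cfm f (Gs s)) ((hCFC d).1 f (Gs s) a1 (hS.met s)) (FNWE_iso (hS.iso s) a2) ?_
      intro n hn x hx
      have h0 : 0 ≤ min 1 (σ / (2 * C)) := (lt_min one_pos (by positivity)).le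
      have h1 := hclose f s x (min 1 (σ / (2 * C))) a1 hsL hx h0 (min_le_left _ _) a3 n hn
      have h2 : ‖iteratedFDeriv ℝ n (fun y => Gs s0 y - Gs s y) x‖ ≤ M * (σ / (2 * M)) := by
        refine (hb4 m' n s0 s x (hSb s0 hs0) (hSb s hsL) (hKm x hx)).trans ?_
        have h3 : ‖s0 - s‖ ≤ σ / (2 * M) := by
          rw [← dist_eq_norm, dist_comm]
          exact (Metric.mem_ball.1 hs).le
        exact mul_le_mul (hM0 n hn) h3 (norm_nonneg _) hMp.le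
      have e1 : (fun y => Gs s0 y - cfm f (Gs s) y) = (fun y => Gs s0 y - Gs s y) + (fun y => Gs s y - cfm f (Gs s) y) := by
        funext y
        simp
      have c1 : ContDiff ℝ ∞ (fun y => Gs s0 y - Gs s y) := (hS.met s0).smooth.sub (hS.met s).smooth
      have c2 : ContDiff ℝ ∞ (fun y => Gs s y - cfm f (Gs s) y) := (hS.met s).smooth.sub ((hCFC d).1 f (Gs s) a1 (hS.met s)).smooth
      rw [e1, iteratedFDeriv_add_apply (c1.contDiffAt.of_le (by exact_mod_cast le_top)) (c2.contDiffAt.of_le (by exact_mod_cast le_top))]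
      refine (norm_add_le _ _).trans ?_
      have h3 : M * (σ / (2 * M)) = σ / 2 := by field_simp
      have h4 : C * min 1 (σ / (2 * C)) ≤ σ / 2 := by
        calc C * min 1 (σ / (2 * C)) ≤ C * (σ / (2 * C)) := mul_le_mul_of_nonneg_left (min_le_right _ _) hCp.le
          _ = σ / 2 := by field_simp
      linarith
  obtain ⟨σ, h1, h2⟩ := key
  exact ⟨σ, h1, fun f a1 a2 a3 s hs => h2 f a1 a2 a3 s hs hs⟩

end

end Pool.Agent.VDI
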